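import Pool.Agent.Helper57_K9.Stmts
import Pool.Agent.Helper75_PP.Quo
import Pool.Agent.Helper66_PP.Pos1
import Pool.Agent.Helper46_PP.Alg
import Pool.Agent.Helper20_PP.Nls
import Pool.Agent.Helper20_PP.Ibr

/-!
# Squad K9, module PUG: good subgroups and quotients by a normal `ℓ`-subgroup
-/

open scoped BigOperators

noncomputable section

namespace Pool.Agent.PP.K9.H02

open Pool.Agent.Helper51_AWC Pool.Agent.Helper79_WRA Pool.Agent.PP Pool.Agent.PP.KF

variable {F A B : Type} [Field F] [Group A] [Group B] [Finite A] [Finite B]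

/-- the image of a class function on the centraliser of the image of `Q` -/
theorem push_br {ℓ : ℕ} (hF : GoodF ℓ F) {p : A →* B} {Q : Subgroup A} (hQ : IsPGroup ℓ Q)
    {e : A → F} (he : IsCl e) {y : B} (hy : y ∈ Subgroup.centralizer ((Q.map p : Subgroup B) : Set B)) :
    H75.push p e y = H75.push p (br Q e) y := by
  classical
  have := Fintype.ofFinite A
  have h1 := H66.orb_conj (F := F) hF hQ (fun x : A => if p x = y then e x else 0) (by
    intro q hq t
    have h2 : p (q * t * q⁻¹) = y ↔ p t = y := by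
      rw [map_mul, map_mul, map_inv]
      have h3 := Subgroup.mem_centralizer_iff.1 hy (p q) ⟨q, hq, rfl⟩
      constructor
      · intro h4
        have h5 : p t = (p q)⁻¹ * (p q * p t * (p q)⁻¹) * p q := by group
        rw [h5, h4, mul_assoc, ← h3, inv_mul_cancel_left]
      · intro h4
        rw [h4, h3, mul_inv_cancel_right]
    change (if p (q * t * q⁻¹) = y then e (q * t * q⁻¹) else 0) = if p t = y then e t else 0
    by_cases h : p t = y
    · rw [if_pos h, if_pos (h2.2 h), he]
    · rw [if_neg h, if_neg (fun h' => h (h2.1 h'))])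
  rw [finsum_eq_sum_of_fintype, finsum_eq_sum_of_fintype] at h1
  rw [H75.push_eq, H75.push_eq, h1]
  refine Finset.sum_congr rfl fun x _ => ?_
  by_cases hx : x ∈ Subgroup.centralizer (Q : Set A)
  · rw [H66.br_of_mem hx, H66.br_of_mem hx]
  · rw [H66.br_of_not_mem hx, H66.br_of_not_mem hx, ite_self]

/-- a non-zero central idempotent acts as the identity on some irreducible representation -/
theorem cnt_pos {ℓ : ℕ} (hF : GoodF ℓ F) {e : A → F} (he : IsIdem e) (h0 : e ≠ 0) :
    0 < H75.cnt e := by
  by_contra hcon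
  apply h0
  have hfin : {f : A → F | f ∈ IBr F A ∧ actF e f = f}.Finite :=
    (H20.ibf ℓ F hF A).1.subset fun f hf => hf.1
  have hemp : {f : A → F | f ∈ IBr F A ∧ actF e f = f} = ∅ := by
    have h1 : {f : A → F | f ∈ IBr F A ∧ actF e f = f}.ncard = 0 := by
      change H75.cnt e = 0
      omega
    exact (Set.ncard_eq_zero hfin).1 h1
  have h1 : ∀ (n : ℕ) (ρ : A →* Matrix (Fin n) (Fin n) F), IsIrr ρ → ev ρ e = 0 := by
    intro n ρ hρ
    obtain ⟨w, hw, hw2, hw3⟩ := H20.eig F A n ρ hρ e he.1
    rcases hw3 he with h | h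
    · rw [hw, h, map_zero]
    · exfalso
      have h2 : tr ρ ∈ {f : A → F | f ∈ IBr F A ∧ actF e f = f} :=
        ⟨⟨n, ρ, hρ, rfl⟩, by rw [hw2, h, one_smul]⟩
      rw [hemp] at h2
      exact h2
  obtain ⟨k, hk⟩ := H20.ibn ℓ F hF A e h1
  have h2 : ∀ m : ℕ, (mulF e)^[m] e = e := by
    intro m
    induction m with
    | zero => rfl
    | succ m ih => rw [Function.iterate_succ_apply', ih, he.2]
  rw [← h2 k, hk]

theorem cnt_zero {ℓ : ℕ} (hF : GoodF ℓ F) : H75.cnt (0 : A → F) = 0 := by
  have h2 : {f : A → F | f ∈ IBr F A ∧ actF (0 : A → F) f = f} = ∅ := by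
    ext f
    simp only [Set.mem_ofPred_eq, Set.mem_empty_iff_false, iff_false, not_and]
    intro hf h3
    refine (H20.ibf ℓ F hF A).2.ne_zero ⟨f, hf⟩ ?_
    change f = 0
    rw [← h3]
    funext x
    have := Fintype.ofFinite A
    unfold actF
    rw [finsum_eq_sum_of_fintype]
    exact Finset.sum_eq_zero fun t _ => zero_mul _
  unfold H75.cnt
  rw [h2, Set.ncard_empty]

/-- the image of a non-zero central idempotent in the quotient by a normal `ℓ`-subgroup -/
theorem push_ne_zero {ℓ : ℕ} (hF : GoodF ℓ F) {p : A →* B} (hp : Function.Surjective p)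
    (hk : IsPGroup ℓ p.ker) {e : A → F} (he : IsIdem e) (h0 : e ≠ 0) : H75.push p e ≠ 0 := by
  intro h
  have h1 := cnt_pos hF he h0
  rw [H75.cnt_push H20.nls hF hp hk e, h, cnt_zero hF] at h1
  exact lt_irrefl _ h1

theorem pug : PugStmt := by
  classical
  intro ℓ F _ hF A B _ _ _ _ p hp hk e he Q hkQ hQ
  have := Fintype.ofFinite A
  constructor
  · rintro ⟨g, hg, hg0⟩
    set Y : Subgroup A := (Subgroup.centralizer ((Q.map p : Subgroup B) : Set B)).comap p with hY
    have hCY : Subgroup.centralizer (Q : Set A) ≤ Y := by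
      intro x hx
      rw [hY, Subgroup.mem_comap, Subgroup.mem_centralizer_iff]
      rintro _ ⟨q, hq, rfl⟩
      rw [← map_mul, ← map_mul, Subgroup.mem_centralizer_iff.1 hx q hq]
    have hYQ : ∀ y ∈ Y, ∀ q ∈ Q, y * q * y⁻¹ ∈ Q := by
      intro y hy q hq
      rw [hY, Subgroup.mem_comap] at hy
      have h3 := Subgroup.mem_centralizer_iff.1 hy (p q) ⟨q, hq, rfl⟩
      have h4 : y * q * y⁻¹ * q⁻¹ ∈ p.ker := by
        rw [MonoidHom.mem_ker, map_mul, map_mul, map_mul, map_inv, map_inv, ← h3,
          mul_inv_cancel_right, mul_inv_cancel]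
      have h5 := mul_mem (hkQ h4) hq
      rwa [inv_mul_cancel_right] at h5
    have hYN : Y ≤ Subgroup.normalizer (Q : Set A) := by
      intro y hy
      rw [Subgroup.mem_normalizer_iff]
      intro v
      constructor
      · intro hv
        exact hYQ y hy v hv
      · intro hv
        have h1 := hYQ y⁻¹ (inv_mem hy) _ hv
        have h2 : y⁻¹ * (y * v * y⁻¹) * y⁻¹⁻¹ = v := by group
        rwa [h2] at h1
    have hf := (H20.brm ℓ F hF A Q Y hQ hCY hYN).2.2 e he
    have hf0 : (fun t : Y => br Q e t) ≠ 0 := by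
      intro h
      have h1 := congrFun h ⟨g, hCY hg⟩
      change br Q e g = 0 at h1
      rw [H66.br_of_mem hg] at h1
      exact hg0 h1
    let p' : Y →* Subgroup.centralizer ((Q.map p : Subgroup B) : Set B) :=
      p.subgroupComap _
    have hp' : Function.Surjective p' := by
      rintro ⟨z, hz⟩
      obtain ⟨a, rfl⟩ := hp z
      exact ⟨⟨a, hz⟩, rfl⟩
    have hk' : IsPGroup ℓ p'.ker := by
      refine hk.of_injective ((Subgroup.subtype Y).comp p'.ker.subtype |>.codRestrict p.ker ?_) ?_
      · intro x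
        rw [MonoidHom.mem_ker]
        exact congrArg Subtype.val (MonoidHom.mem_ker.1 x.2)
      · intro a b hab
        apply Subtype.ext
        apply Subtype.ext
        exact congrArg (fun t : p.ker => (t : A)) hab
    have h1 := push_ne_zero hF hp' hk' hf hf0
    obtain ⟨z, hz⟩ : ∃ z, H75.push p' (fun t : Y => br Q e t) z ≠ 0 := by
      by_contra hcon
      push Not at hcon
      exact h1 (funext hcon)
    refine ⟨z, z.2, ?_⟩
    rw [push_br hF hQ he.1 z.2]
    have h2 : H75.push p (br Q e) (z : B) = H75.push p' (fun t : Y => br Q e t) z := by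
      have := Fintype.ofFinite Y
      rw [H75.push_eq, H75.push_eq]
      have h3 : ∀ x : A, x ∉ Y → (if p x = z then br Q e x else 0) = 0 := by
        intro x hx
        rw [H66.br_of_not_mem (fun h => hx (hCY h)), ite_self]
      symm
      refine Fintype.sum_of_injective (fun x : Y => (x : A)) Subtype.val_injective _ _ ?_ ?_
      · intro x hx
        exact h3 x fun h => hx ⟨⟨x, h⟩, rfl⟩
      · intro x
        have h4 : p' x = z ↔ p x = z := by
          constructor
          · intro h
            exact congrArg Subtype.val h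
          · intro h
            exact Subtype.ext h
        by_cases h : p x = z
        · rw [if_pos h, if_pos (h4.2 h)]
        · rw [if_neg h, if_neg (fun h' => h (h4.1 h'))]
    rw [h2]
    exact hz
  · rintro ⟨y, hy, hy0⟩
    rw [push_br hF hQ he.1 hy, H75.push_eq] at hy0
    obtain ⟨x, -, hx⟩ := Finset.exists_ne_zero_of_sum_ne_zero hy0
    have hx1 : br Q e x ≠ 0 := by
      intro h
      rw [h, ite_self] at hx
      exact hx rfl
    by_cases hxQ : x ∈ Subgroup.centralizer (Q : Set A)
    · rw [H66.br_of_mem hxQ] at hx1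
      exact ⟨x, hxQ, hx1⟩
    · exact absurd (H66.br_of_not_mem hxQ) hx1

end Pool.Agent.PP.K9.H02
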