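import Pool.Agent.Helper57_K9.Stmts3
import Pool.Agent.Helper11_K9.Base
import Pool.Agent.Helper24_D2.Psb

/-!
# Squad K9, module KL_KL: a block with a defect group of order `ℓ ^ 2` has at most `ℓ ^ 2`
characters
-/

open scoped BigOperators

noncomputable section

namespace Pool.Agent.PP.K9.H02

open Pool.Agent.Helper51_AWC Pool.Agent.Helper79_WRA Pool.Agent.PP Pool.Agent.PP.KF H11

attribute [local instance] Ideal.Quotient.field

/-- counting: the contribution of one character -/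
theorem count_ge {n : ℕ} {m : ℕ} (hm : 0 < m) (L : ℝ) (hL : 0 ≤ L) (N : Fin n → ℝ)
    (R : Fin n → Fin n → ℝ) (hN0 : ∀ i, 0 ≤ N i) (hR0 : ∀ i k, 0 ≤ R i k) (J : Fin n → Prop)
    (hN : ∀ i, J i → L ≤ N i) (hR : ∀ i k, ¬ J i → J k → L ≤ R i k ∧ L ≤ R k i)
    (hJ : ∃ k, J k) : 2 * n * L ≤ 2 * ∑ i, N i + m * ∑ i, ∑ k, R i k := by
  classical
  obtain ⟨k₀, hk₀⟩ := hJ
  set A := Finset.univ.filter J with hA
  set B := Finset.univ.filter (fun i => ¬ J i) with hB
  have hcard : (A.card : ℝ) + B.card = n := by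
    have h := Finset.card_filter_add_card_filter_not (s := (Finset.univ : Finset (Fin n))) J
    rw [Finset.card_univ, Fintype.card_fin] at h
    exact_mod_cast h
  have h1 : (A.card : ℝ) * L ≤ ∑ i, N i := by
    have h2 : ∑ i ∈ A, L ≤ ∑ i ∈ A, N i := Finset.sum_le_sum fun i hi =>
      hN i (Finset.mem_filter.1 hi).2
    rw [Finset.sum_const, nsmul_eq_mul] at h2
    exact h2.trans (Finset.sum_le_sum_of_subset_of_nonneg (Finset.subset_univ _)
      fun i _ _ => hN0 i)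
  have h3 : (B.card : ℝ) * L ≤ ∑ i ∈ B, ∑ k, R i k := by
    have h2 : ∑ i ∈ B, L ≤ ∑ i ∈ B, ∑ k, R i k := Finset.sum_le_sum fun i hi =>
      ((hR i k₀ (Finset.mem_filter.1 hi).2 hk₀).1).trans
        (Finset.single_le_sum (fun k _ => hR0 i k) (Finset.mem_univ k₀))
    rwa [Finset.sum_const, nsmul_eq_mul] at h2
  have h4 : (B.card : ℝ) * L ≤ ∑ i ∈ A, ∑ k, R i k := by
    have h2 : ∑ k ∈ B, L ≤ ∑ k ∈ B, R k₀ k := Finset.sum_le_sum fun k hk =>
      (hR k k₀ (Finset.mem_filter.1 hk).2 hk₀).2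
    rw [Finset.sum_const, nsmul_eq_mul] at h2
    have h5 : ∑ k ∈ B, R k₀ k ≤ ∑ k, R k₀ k :=
      Finset.sum_le_sum_of_subset_of_nonneg (Finset.subset_univ _) fun k _ _ => hR0 k₀ k
    have h6 : ∑ k, R k₀ k ≤ ∑ i ∈ A, ∑ k, R i k :=
      Finset.single_le_sum (f := fun i => ∑ k, R i k)
        (fun i _ => Finset.sum_nonneg fun k _ => hR0 i k)
        (Finset.mem_filter.2 ⟨Finset.mem_univ k₀, hk₀⟩)
    exact h2.trans (h5.trans h6)
  have h7 : ∑ i, ∑ k, R i k = ∑ i ∈ A, ∑ k, R i k + ∑ i ∈ B, ∑ k, R i k :=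
    (Finset.sum_filter_add_sum_filter_not Finset.univ J _).symm
  have h8 : 0 ≤ ∑ i, ∑ k, R i k :=
    Finset.sum_nonneg fun i _ => Finset.sum_nonneg fun k _ => hR0 i k
  have h9 : ∑ i, ∑ k, R i k ≤ m * ∑ i, ∑ k, R i k := by
    have hm1 : (1 : ℝ) ≤ m := by exact_mod_cast hm
    calc ∑ i, ∑ k, R i k = 1 * ∑ i, ∑ k, R i k := (one_mul _).symm
      _ ≤ _ := mul_le_mul_of_nonneg_right hm1 h8
  calc 2 * n * L = 2 * (A.card * L) + (B.card * L + B.card * L) := by
        rw [← hcard]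
        ring
    _ ≤ 2 * ∑ i, N i + (∑ i ∈ A, ∑ k, R i k + ∑ i ∈ B, ∑ k, R i k) := by
        linarith
    _ ≤ _ := by
        rw [← h7]
        linarith

theorem Av_sum {G H : Type} [Group G] [Group H] [Finite G] {C : Subgroup G} (ℓ : ℕ) (π : C →* H)
    (w : G) (χ : G → ℂ) {ι : Type} (s : Finset ι) (p : ι → H → ℂ) :
    Av ℓ π w (∑ i ∈ s, p i) χ = ∑ i ∈ s, Av ℓ π w (p i) χ := by
  classical
  induction s using Finset.induction_on with
  | empty =>
    rw [Finset.sum_empty, Finset.sum_empty]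
    have h := Av_smul ℓ π w 0 (0 : H → ℂ) χ
    rw [zero_smul, map_zero, zero_mul] at h
    exact h
  | insert a s ha ih => rw [Finset.sum_insert ha, Finset.sum_insert ha, Av_add, ih]

theorem kl (dtl : DtlStmt) (pug : PugStmt) (int : IntStmt) (sec : SecStmt) (azr : AzrStmt)
    (nz : NzStmt) (prg : PrgStmt) (gal : GalStmt) : KlStmt := by
  intro ℓ hℓ M _ hM G _ _ e he V hV hV9
  classical
  have hp : ℓ.Prime := hℓ.out
  have hF : GoodF ℓ (FF M) := H50.fld ℓ hp M hM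
  -- `V` is abelian
  have hab : ∀ a ∈ V, ∀ b ∈ V, a * b = b * a := by
    intro a ha b hb
    have h1 := IsPGroup.commutative_of_card_eq_prime_sq (G := V) (p := ℓ) hV9 ⟨a, ha⟩ ⟨b, hb⟩
    exact congrArg Subtype.val h1
  -- an element of order `ℓ`
  obtain ⟨u, huV, hu⟩ : ∃ u ∈ V, orderOf u = ℓ := by
    obtain ⟨x, hx⟩ := exists_prime_orderOf_dvd_card' (G := V) ℓ (by
      rw [hV9]
      exact dvd_pow_self ℓ two_ne_zero)
    exact ⟨x, x.2, by rw [Subgroup.orderOf_coe, hx]⟩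
  have hπ : Qt ℓ u (pq u) := qt hu
  have hfin : Finite (Hq u) := inferInstance
  have huu : orderOf (uc u) = ℓ := by
    rw [← hu]
    exact Subgroup.orderOf_mk u _
  have hVC : V ≤ Cu u := fun x hx => Subgroup.mem_centralizer_singleton_iff.2 (hab x hx u huV)
  have heC : IsIdem (fun t : Cu u => e t) := idem_cu hF he.1 hu
  -- the block of the centraliser
  obtain ⟨g, hg, hge⟩ := hV.gd
  have hgC : g ∈ Cu u := Subgroup.mem_centralizer_singleton_iff.2
    (Subgroup.mem_centralizer_iff.1 hg u huV).symm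
  obtain ⟨b, hb, hbe, hbg⟩ := H69.exists_blk heC (g := ⟨g, hgC⟩) hge
  have hbV : Gd b (V.subgroupOf (Cu u)) := by
    refine ⟨⟨g, hgC⟩, ?_, hbg⟩
    rw [Subgroup.mem_centralizer_iff]
    intro x hx
    apply Subtype.ext
    exact Subgroup.mem_centralizer_iff.1 hg x.1 (Subgroup.mem_subgroupOf.1 hx)
  -- the quotient
  have hker : (pq u).ker = Subgroup.zpowers (uc u) := QuotientGroup.ker_mk' _
  have hkc : Nat.card (pq u).ker = ℓ := by rw [hker, Nat.card_zpowers, huu]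
  have hkp : IsPGroup ℓ (pq u).ker := IsPGroup.of_card (n := 1) (by rw [hkc, pow_one])
  have hb' : IsBlk (H75.push (pq u) b) :=
    CD2.H24.psb ℓ (FF M) hF (Cu u) (Hq u) (pq u) hπ.sur (uc u) huu (uc_center u) hker b hb
  have hkV : (pq u).ker ≤ V.subgroupOf (Cu u) := by
    rw [hker, Subgroup.zpowers_le]
    exact huV
  have hVp : IsPGroup ℓ (V.subgroupOf (Cu u)) :=
    hV.pg.of_equiv (Subgroup.subgroupOfEquivOfLe hVC).symm
  have hVc : Nat.card (V.subgroupOf (Cu u)) = ℓ ^ 2 := by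
    rw [← hV9]
    exact Nat.card_congr (Subgroup.subgroupOfEquivOfLe hVC).toEquiv
  have hcard : ∀ Q : Subgroup (Hq u), Nat.card (Q.comap (pq u)) = ℓ * Nat.card Q := by
    intro Q
    have := H75.card_comap (p := pq u) hπ.sur Q
    rw [this, hkc]
  have hcm : ((V.subgroupOf (Cu u)).map (pq u)).comap (pq u) = V.subgroupOf (Cu u) :=
    Subgroup.comap_map_eq_self hkV
  have hV' : Nat.card ((V.subgroupOf (Cu u)).map (pq u)) = ℓ := by
    have h1 := hcard ((V.subgroupOf (Cu u)).map (pq u))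
    rw [hcm, hVc, pow_two] at h1
    exact (Nat.eq_of_mul_eq_mul_left hp.pos h1).symm
  have hTp : Tp ℓ (H75.push (pq u) b) ((V.subgroupOf (Cu u)).map (pq u)) := by
    refine ⟨hVp.map _, (pug ℓ (FF M) hF (Cu u) (Hq u) (pq u) hπ.sur hkp b hb.1 _ hkV hVp).1 hbV, ?_⟩
    intro Q hQ hQb
    have h1 : Q = (Q.comap (pq u)).map (pq u) :=
      (Subgroup.map_comap_eq_self_of_surjective hπ.sur Q).symm
    have h2 : IsPGroup ℓ (Q.comap (pq u)) := by
      obtain ⟨n, hn⟩ := (IsPGroup.iff_card).1 hQ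
      exact IsPGroup.of_card (n := n + 1) (by rw [hcard, hn, pow_succ, mul_comm])
    have h3 : (pq u).ker ≤ Q.comap (pq u) := by
      intro x hx
      rw [Subgroup.mem_comap, MonoidHom.mem_ker.1 hx]
      exact Q.one_mem
    rw [h1] at hQb
    have h4 := (pug ℓ (FF M) hF (Cu u) (Hq u) (pq u) hπ.sur hkp b hb.1 _ h3 h2).2 hQb
    have h5 := gd_sub (gd_factor hF heC.1 hb.1.1 hbe h2 h4)
    have h6 := hV.mx _ (h2.map _) h5
    have h7 : Nat.card ((Q.comap (pq u)).map (Cu u).subtype) = Nat.card (Q.comap (pq u)) :=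
      (Nat.card_congr ((Q.comap (pq u)).equivMapOfInjective _
        (Subgroup.subtype_injective _)).toEquiv).symm
    rw [h7, hcard, hV9, pow_two] at h6
    rw [hV']
    exact Nat.le_of_mul_le_mul_left h6 hp.pos
  -- the characters of `e`
  have hfi : (Irr G).Finite := by
    have := Fintype.ofFinite G
    exact irr_finite'
  have := (hfi.subset (irrE_sub M e)).fintype
  have hirr := irrE_sub M e
  obtain ⟨ζ, hζ⟩ : ∃ ζ : ℂ, IsPrimitiveRoot ζ ℓ :=
    ⟨_, Complex.isPrimitiveRoot_exp ℓ hp.ne_zero⟩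
  have huz : ∀ j : ℕ, u ^ j ∈ Subgroup.zpowers u := fun j => Subgroup.npow_mem_zpowers u j
  have hu1 : ∀ j ∈ Finset.Ico 1 ℓ, u ^ j ≠ 1 := by
    intro j hj h
    rw [Finset.mem_Ico] at hj
    have h1 : orderOf u ∣ j := orderOf_dvd_of_pow_eq_one h
    rw [hu] at h1
    have h2 := Nat.le_of_dvd (by omega) h1
    omega
  have h1m : 1 ∈ Finset.Ico 1 ℓ := by
    rw [Finset.mem_Ico]
    exact ⟨le_rfl, hp.one_lt⟩
  have hout : ∀ p ∈ ZE M (H75.push (pq u) b), Rc ℓ p → ∀ j ∈ Finset.Ico 1 ℓ, ∀ χ ∈ Irr G,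
      χ ∉ IrrE M e → Av ℓ (pq u) (u ^ j) p χ = 0 := by
    intro p hp hr j hj χ hχ hχ'
    exact azr ℓ M hM G (Hq u) u (pq u) hπ e he.1 b hb.1 hbe p (ze_span M _ hp) hr _ (huz j)
      (hu1 j hj) χ hχ hχ'
  have hne : ∀ θ : IrrE M e, Av ℓ (pq u) (u ^ 1) (pr M (H75.push (pq u) b)) θ.1 ≠ 0 := by
    intro θ
    rw [(prg ℓ M hM).2 G (Hq u) u (pq u) hπ b hb.1 _ (huz 1) θ.1 (hirr θ.2)]
    exact nz ℓ M hM G e he V hV hab u huV b hb hbe hbV _ (huz 1) θ.1 θ.2
  -- the sums of the norms of the conjugates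
  set NN : (Hq u → ℂ) → IrrE M e → ℝ := fun p θ =>
    ∑ j ∈ Finset.Ico 1 ℓ, Complex.normSq (Av ℓ (pq u) (u ^ j) p θ.1) with hNN
  have hN0 : ∀ p θ, 0 ≤ NN p θ := fun p θ =>
    Finset.sum_nonneg fun j _ => Complex.normSq_nonneg _
  have hN1 : ∀ p ∈ ZE M (H75.push (pq u) b), Rc ℓ p → ∀ θ : IrrE M e,
      Av ℓ (pq u) (u ^ 1) p θ.1 ≠ 0 → ((ℓ : ℝ) - 1) ≤ NN p θ := by
    intro p hp hr θ h0
    obtain ⟨a, ha⟩ := int ℓ G (Hq u) u (pq u) hπ p (ze_zi M _ hp) hr θ.1 (hirr θ.2) ζ hζ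
    have h2 := gal ℓ ζ hζ a (by
      intro h3
      apply h0
      rw [ha 1, ← h3]
      exact Finset.sum_congr rfl fun i _ => by rw [mul_one])
    refine h2.trans (le_of_eq ?_)
    exact Finset.sum_congr rfl fun j _ => by rw [ha j]
  have hsum : ∀ p ∈ ZE M (H75.push (pq u) b), Rc ℓ p →
      ∑ θ : IrrE M e, NN p θ = ((ℓ : ℝ) - 1) * (ℓ * (ipn p p).re) := by
    intro p hp' hr
    have h1 : ∀ j ∈ Finset.Ico 1 ℓ,
        ∑ θ : IrrE M e, Complex.normSq (Av ℓ (pq u) (u ^ j) p θ.1) = ℓ * (ipn p p).re := by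
      intro j hj
      have h2 := (sec ℓ G (Hq u) u (pq u) hπ p p hr hr _ (huz j) (hu1 j hj)).1
      rw [sum_irr hirr _ (fun χ hχ hχ' => by rw [hout p hp' hr j hj χ hχ hχ', zero_mul])] at h2
      have h3 : ((∑ θ : IrrE M e, Complex.normSq (Av ℓ (pq u) (u ^ j) p θ.1) : ℝ) : ℂ) =
          ℓ * ipn p p := by
        rw [← h2, Complex.ofReal_sum]
        exact Finset.sum_congr rfl fun θ _ => (Complex.mul_conj _).symm
      have h4 := congrArg Complex.re h3
      rw [Complex.ofReal_re, ← Complex.ofReal_natCast, Complex.re_ofReal_mul] at h4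
      exact h4
    rw [hNN]
    change ∑ θ : IrrE M e, ∑ j ∈ Finset.Ico 1 ℓ, _ = _
    rw [Finset.sum_comm, Finset.sum_congr rfl h1, Finset.sum_const, Nat.card_Ico, nsmul_eq_mul,
      Nat.cast_sub hp.one_lt.le, Nat.cast_one]
  have hk : (IrrE M e).ncard = Fintype.card (IrrE M e) := by
    rw [← Nat.card_coe_set_eq, Nat.card_eq_fintype_card]
  rw [hk]
  obtain ⟨n, m, c, w, f, h, hn, hm, hc, hw, hf, hh, hrel, hgram, d, hd⟩ :=
    dtl ℓ M hM (Hq u) (H75.push (pq u) b) hb' _ hTp hV'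
  have hL : (0 : ℝ) < (ℓ : ℝ) - 1 := by
    have h1 : (1 : ℝ) < ℓ := by exact_mod_cast hp.one_lt
    linarith
  -- the contribution of one character
  have hone : ∀ θ : IrrE M e, 2 * n * ((ℓ : ℝ) - 1) ≤
      2 * ∑ i, NN (f i) θ + m * ∑ i, ∑ k, NN (h i k) θ := by
    intro θ
    refine count_ge hm _ hL.le _ _ (fun i => hN0 _ _) (fun i k => hN0 _ _)
      (fun i => Av ℓ (pq u) (u ^ 1) (f i) θ.1 ≠ 0) (fun i hi => hN1 _ (hf i).1 (hf i).2 θ hi)
      ?_ ?_
    · intro i k hi hk'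
      rw [not_not] at hi
      have key : ∀ a a' : Fin n, (c : ℂ) * Av ℓ (pq u) (u ^ 1) (h a a') θ.1 =
          w a' * Av ℓ (pq u) (u ^ 1) (f a) θ.1 - w a * Av ℓ (pq u) (u ^ 1) (f a') θ.1 := by
        intro a a'
        have h1 := congrArg (fun p => Av ℓ (pq u) (u ^ 1) p θ.1) (hrel a a')
        change Av ℓ (pq u) (u ^ 1) _ θ.1 = Av ℓ (pq u) (u ^ 1) _ θ.1 at h1
        rw [Av_smul, Av_sub, Av_smul, Av_smul, map_intCast, map_intCast, map_intCast] at h1
        exact h1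
      constructor
      · refine hN1 _ (hh i k).1 (hh i k).2 θ ?_
        intro h0
        have h1 := key i k
        rw [h0, hi, mul_zero, mul_zero, zero_sub, eq_comm, neg_eq_zero, mul_eq_zero] at h1
        rcases h1 with h1 | h1
        · exact hw i (by exact_mod_cast h1)
        · exact hk' h1
      · refine hN1 _ (hh k i).1 (hh k i).2 θ ?_
        intro h0
        have h1 := key k i
        rw [h0, hi, mul_zero, mul_zero, sub_zero, eq_comm, mul_eq_zero] at h1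
        rcases h1 with h1 | h1
        · exact hw i (by exact_mod_cast h1)
        · exact hk' h1
    · by_contra hcon
      push Not at hcon
      apply hne θ
      rw [hd, Av_sum]
      refine Finset.sum_eq_zero fun i _ => ?_
      rw [Av_smul, hcon i, mul_zero]
  have htot : ∑ θ : IrrE M e, (2 * ∑ i, NN (f i) θ + m * ∑ i, ∑ k, NN (h i k) θ) =
      ((ℓ : ℝ) - 1) * (ℓ * (2 * n * ℓ)) := by
    have h1 : ((2 : ℝ) * ∑ i, (ipn (f i) (f i)).re + m * ∑ i, ∑ k, (ipn (h i k) (h i k)).re) =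
        2 * n * ℓ := by
      have h2 := congrArg Complex.re hgram
      rw [Complex.add_re, show (2 : ℂ) = ((2 : ℝ) : ℂ) by norm_num, Complex.re_ofReal_mul,
        Complex.re_sum, ← Complex.ofReal_natCast m, Complex.re_ofReal_mul, Complex.re_sum,
        ← Complex.ofReal_natCast n, ← Complex.ofReal_natCast ℓ, ← Complex.ofReal_mul,
        ← Complex.ofReal_mul, Complex.ofReal_re] at h2
      rw [← h2]
      congr 2
      exact Finset.sum_congr rfl fun i _ => (Complex.re_sum _ _).symm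
    rw [Finset.sum_add_distrib, ← Finset.mul_sum, ← Finset.mul_sum, Finset.sum_comm,
      Finset.sum_congr rfl fun i _ => hsum (f i) (hf i).1 (hf i).2, Finset.sum_comm]
    have h3 : ∀ i : Fin n, ∑ θ : IrrE M e, ∑ k, NN (h i k) θ =
        ∑ k, ((ℓ : ℝ) - 1) * (ℓ * (ipn (h i k) (h i k)).re) := by
      intro i
      rw [Finset.sum_comm]
      exact Finset.sum_congr rfl fun k _ => hsum (h i k) (hh i k).1 (hh i k).2
    rw [Finset.sum_congr rfl fun i _ => h3 i, ← h1]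
    simp only [← Finset.mul_sum]
    ring
  have hfinal : (Fintype.card (IrrE M e) : ℝ) * (2 * n * ((ℓ : ℝ) - 1)) ≤
      ((ℓ : ℝ) - 1) * (ℓ * (2 * n * ℓ)) := by
    rw [← htot, ← Finset.card_univ, ← nsmul_eq_mul, ← Finset.sum_const]
    exact Finset.sum_le_sum fun θ _ => hone θ
  have hn' : (0 : ℝ) < n := by exact_mod_cast hn
  have h5 : (Fintype.card (IrrE M e) : ℝ) ≤ (ℓ : ℝ) ^ 2 := by
    have h6 : 0 < 2 * n * ((ℓ : ℝ) - 1) := by positivity
    refine le_of_mul_le_mul_right (hfinal.trans (le_of_eq ?_)) h6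
    ring
  exact_mod_cast h5

end Pool.Agent.PP.K9.H02
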